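import Pool.Agent.Helper8.DP.ESheet

/-! Row EXT: a Lipschitz extension operator from the points of positive rank. -/

open scoped ContDiff
open Set Filter Topology

namespace Pool.Agent.Helper8.DP

namespace H59

variable {Q : Type*} {r : Q → ℕ}

/-- The supremum of the values `h γ` of the points `γ` of rank `j` with `k ∈ U γ`. -/
noncomputable def Bf (U : Q → Set Q) (j : ℕ) (h : Pos r → ℝ) (k : Q) : ℝ :=
  ⨆ γ : {γ : Pos r // r γ.1 = j}, (U γ.1.1).indicator (fun _ => h γ.1) k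

variable {U : Q → Set Q} {j : ℕ} {h h' : Pos r → ℝ} {k : Q} {R c : ℝ}

theorem Bf_nonneg (h0 : ∀ γ, 0 ≤ h γ) : 0 ≤ Bf U j h k :=
  Real.iSup_nonneg fun γ => Set.indicator_nonneg (fun _ _ => h0 γ.1) _

theorem Bf_le (hc : 0 ≤ c) (hh : ∀ γ : Pos r, r γ.1 = j → k ∈ U γ.1 → h γ ≤ c) :
    Bf U j h k ≤ c := by
  refine Real.iSup_le (fun γ => ?_) hc
  by_cases hk : k ∈ U γ.1.1
  · rw [Set.indicator_of_mem hk]
    exact hh γ.1 γ.2 hk
  · rw [Set.indicator_of_notMem hk]
    exact hc

theorem le_Bf (hR : ∀ γ, h γ ≤ R) (hR0 : 0 ≤ R) (γ : Pos r) (hγ : r γ.1 = j) (hk : k ∈ U γ.1) :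
    h γ ≤ Bf U j h k := by
  have hb : BddAbove (range fun γ : {γ : Pos r // r γ.1 = j} =>
      (U γ.1.1).indicator (fun _ => h γ.1) k) := by
    refine ⟨R, ?_⟩
    rintro _ ⟨γ, rfl⟩
    exact Set.indicator_le' (fun _ _ => hR γ.1) (fun _ _ => hR0) k
  have := le_ciSup hb ⟨γ, hγ⟩
  rwa [Set.indicator_of_mem hk] at this

theorem Bf_lip (hR : ∀ γ, h γ ≤ R) (hR' : ∀ γ, h' γ ≤ R) (hR0 : 0 ≤ R) (h0 : ∀ γ, 0 ≤ h γ)
    (h0' : ∀ γ, 0 ≤ h' γ) (hc : 0 ≤ c) (hh : ∀ γ, |h γ - h' γ| ≤ c) :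
    |Bf U j h k - Bf U j h' k| ≤ c := by
  have e1 : 0 ≤ Bf U j h k := Bf_nonneg h0
  have e2 : 0 ≤ Bf U j h' k := Bf_nonneg h0'
  have f1 : Bf U j h k ≤ Bf U j h' k + c := Bf_le (by linarith) fun γ hγ hk => by
    have := le_Bf (U := U) hR' hR0 γ hγ hk
    have := (abs_le.1 (hh γ)).2
    linarith
  have f2 : Bf U j h' k ≤ Bf U j h k + c := Bf_le (by linarith) fun γ hγ hk => by
    have := le_Bf (U := U) hR hR0 γ hγ hk
    have := (abs_le.1 (hh γ)).1
    linarith
  rw [abs_le]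
  constructor <;> linarith

theorem Bf_eq (hUm : ∀ k, k ∈ U k) (hUr : ∀ k, ∀ k' ∈ U k, k' ≠ k → r k' < r k)
    (hR : ∀ γ, h γ ≤ R) (hR0 : 0 ≤ R) (h0 : ∀ γ, 0 ≤ h γ) (γ : Pos r) (hγ : r γ.1 = j) :
    Bf U j h γ.1 = h γ := by
  refine le_antisymm (Bf_le (h0 γ) fun γ' hγ' hk => ?_) (le_Bf hR hR0 γ hγ (hUm _))
  by_cases he : γ.1 = γ'.1
  · rw [Subtype.ext he]
  · have := hUr _ _ hk he
    omega

theorem Bf_zero (hUr : ∀ k, ∀ k' ∈ U k, k' ≠ k → r k' < r k)
    (h0 : ∀ γ, 0 ≤ h γ) (hk : j < r k) : Bf U j h k = 0 := by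
  refine le_antisymm (Bf_le le_rfl fun γ' hγ' hk' => ?_) (Bf_nonneg h0)
  by_cases he : k = γ'.1
  · rw [he] at hk
    omega
  · have := hUr _ _ hk' he
    omega

theorem Bf_continuous [TopologicalSpace Q] [CompactSpace (Pos r)]
    (hcl : IsClosed {k | j ≤ r k}) (hU : ∀ k, IsClopen (U k)) (hUm : ∀ k, k ∈ U k)
    (hUr : ∀ k, ∀ k' ∈ U k, k' ≠ k → r k' < r k) (hc : Continuous h)
    (hR : ∀ γ, h γ ≤ R) (hR0 : 0 ≤ R) (h0 : ∀ γ, 0 ≤ h γ) (hz : ∀ γ : Pos r, j < r γ.1 → h γ = 0) :
    Continuous (Bf U j h) := by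
  rw [continuous_iff_continuousAt]
  intro k0
  rw [Metric.continuousAt_iff']
  intro ε hε
  -- the finite set of relevant points
  set S : Set (Pos r) := {γ | j ≤ r γ.1} ∩ {γ | ε / 2 ≤ h γ} with hS
  have hSc : IsCompact S := ((hcl.preimage continuous_subtype_val).inter
    (isClosed_le continuous_const hc)).isCompact
  have hSj : ∀ γ ∈ S, r γ.1 = j := by
    intro γ hγ
    by_contra hne
    have h1 : j ≤ r γ.1 := hγ.1
    have h2 : ε / 2 ≤ h γ := hγ.2
    rw [hz γ (by omega)] at h2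
    linarith
  obtain ⟨t, hts, ht⟩ := hSc.elim_nhds_subcover (fun γ => Subtype.val ⁻¹' U γ.1) fun γ _ =>
    ((hU γ.1).isOpen.preimage continuous_subtype_val).mem_nhds (hUm γ.1)
  have hSt : ∀ γ ∈ S, γ ∈ t := by
    intro γ hγ
    obtain ⟨γ', h1, h2⟩ := mem_iUnion₂.1 (ht hγ)
    by_cases he : γ.1 = γ'.1
    · rwa [Subtype.ext he]
    · exfalso
      have h3 := hUr _ _ h2 he
      have h4 := hSj γ hγ
      have h5 := hSj γ' (hts γ' h1)
      omega
  have hW : ∀ᶠ k in 𝓝 k0, ∀ γ ∈ t, (k ∈ U γ.1 ↔ k0 ∈ U γ.1) := by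
    rw [Filter.eventually_all_finset]
    intro γ _
    by_cases hk : k0 ∈ U γ.1
    · filter_upwards [(hU γ.1).isOpen.mem_nhds hk] with k hk'
      exact ⟨fun _ => hk, fun _ => hk'⟩
    · filter_upwards [(hU γ.1).compl.isOpen.mem_nhds hk] with k hk'
      exact ⟨fun h => absurd h hk', fun h => absurd h hk⟩
  filter_upwards [hW] with k hk
  have e1 : 0 ≤ Bf U j h k := Bf_nonneg h0
  have e2 : 0 ≤ Bf U j h k0 := Bf_nonneg h0
  have f1 : Bf U j h k ≤ Bf U j h k0 + ε / 2 := Bf_le (by linarith) fun γ hγ hk' => by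
    by_cases hS' : γ ∈ S
    · have := le_Bf (U := U) hR hR0 γ hγ ((hk γ (hSt γ hS')).1 hk')
      linarith
    · have : h γ < ε / 2 := by
        by_contra hcon
        exact hS' ⟨hγ.ge, not_lt.1 hcon⟩
      linarith
  have f2 : Bf U j h k0 ≤ Bf U j h k + ε / 2 := Bf_le (by linarith) fun γ hγ hk' => by
    by_cases hS' : γ ∈ S
    · have := le_Bf (U := U) hR hR0 γ hγ ((hk γ (hSt γ hS')).2 hk')
      linarith
    · have : h γ < ε / 2 := by
        by_contra hcon
        exact hS' ⟨hγ.ge, not_lt.1 hcon⟩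
      linarith
  rw [Real.dist_eq, abs_lt]
  constructor <;> linarith

end H59

open H59

/-- (EXT) -/
theorem st_EXT.{u} : ST_EXT.{u} := by
  intro Q _ _ _ r n hr _
  choose U hU hUm _ hUr using fun k => hr.2 k Set.univ univ_mem
  have key : ∀ i : ℕ, ∃ (A : C(Pos r, ℝ) → C(Q, ℝ)) (Λ : ℝ), 0 < Λ ∧
      (∀ y y', ‖A y - A y'‖ ≤ Λ * ‖y - y'‖) ∧ ∀ y (k : Pos r), n ≤ r k.1 + i → A y k = y k := by
    intro i
    induction i with
    | zero =>
      refine ⟨fun _ => 0, 1, one_pos, fun y y' => ?_, fun y k hk => ?_⟩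
      · rw [sub_self, norm_zero]
        positivity
      · exact absurd (hr.1 k.1) (by omega)
    | succ i ih =>
      obtain ⟨A, Λ, hΛ, hA, hA'⟩ := ih
      by_cases hni : n ≤ i
      · exact ⟨A, Λ, hΛ, hA, fun y k _ => hA' y k (by omega)⟩
      set j : ℕ := n - (i + 1) with hj
      set g : C(Pos r, ℝ) → C(Pos r, ℝ) := fun y => y - restr r (A y) with hg
      have hg1 : ∀ y y', ‖g y - g y'‖ ≤ (1 + Λ) * ‖y - y'‖ := by
        intro y y'
        have e : g y - g y' = (y - y') - restr r (A y - A y') := by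
          simp only [hg, map_sub]; abel
        rw [e]
        have h1 : ‖restr r (A y - A y')‖ ≤ ‖A y - A y'‖ :=
          (ContinuousMap.norm_le _ (norm_nonneg _)).2 fun k => by
            rw [restr_apply]; exact (A y - A y').norm_coe_le_norm _
        calc ‖(y - y') - restr r (A y - A y')‖ ≤ ‖y - y'‖ + ‖restr r (A y - A y')‖ :=
              norm_sub_le _ _
          _ ≤ ‖y - y'‖ + Λ * ‖y - y'‖ := by gcongr; exact h1.trans (hA y y')
          _ = (1 + Λ) * ‖y - y'‖ := by ring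
      have hg2 : ∀ y (γ : Pos r), j < r γ.1 → g y γ = 0 := by
        intro y γ hγ
        have h1 : g y γ = y γ - A y γ.1 := rfl
        rw [h1, hA' y γ (by omega), sub_self]
      have hex : ∀ (σ : ℝ) (y : C(Pos r, ℝ)), ∃ b : C(Q, ℝ), ∀ k,
          b k = Bf U j (fun γ : Pos r => max (σ * g y γ) 0) k := by
        intro σ y
        have hc : Continuous fun γ : Pos r => max (σ * g y γ) 0 := by fun_prop
        exact ⟨⟨_, Bf_continuous (R := |σ| * ‖g y‖) (isClosed_ge hr j) hU hUm hUr hc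
          (fun γ => max_le ((le_abs_self _).trans (by
            rw [abs_mul]
            gcongr
            exact (g y).norm_coe_le_norm γ)) (by positivity)) (by positivity)
          (fun γ => le_max_right _ _) (fun γ hγ => by
            rw [hg2 y γ hγ, mul_zero, max_self])⟩, fun _ => rfl⟩
      choose b hb using hex
      have hblip : ∀ σ : ℝ, |σ| = 1 → ∀ y y', ‖b σ y - b σ y'‖ ≤ (1 + Λ) * ‖y - y'‖ := by
        intro σ hσ y y'
        refine (ContinuousMap.norm_le _ (by positivity)).2 fun k => ?_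
        rw [ContinuousMap.sub_apply, hb, hb, Real.norm_eq_abs]
        have hbd : ∀ (y : C(Pos r, ℝ)) (γ : Pos r), max (σ * g y γ) 0 ≤ ‖g y‖ := fun y γ =>
          max_le ((le_abs_self _).trans (by
            rw [abs_mul, hσ, one_mul]
            exact (g y).norm_coe_le_norm γ)) (norm_nonneg _)
        refine Bf_lip (R := max ‖g y‖ ‖g y'‖) (fun γ => (hbd y γ).trans (le_max_left _ _))
          (fun γ => (hbd y' γ).trans (le_max_right _ _))
          ((norm_nonneg _).trans (le_max_left _ _)) (fun γ => le_max_right _ _)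
          (fun γ => le_max_right _ _) (by positivity) fun γ => ?_
        refine (abs_max_sub_max_le_abs _ _ _).trans ?_
        rw [← mul_sub, abs_mul, hσ, one_mul]
        exact ((g y - g y').norm_coe_le_norm γ).trans (hg1 y y')
      refine ⟨fun y => A y + b 1 y - b (-1) y, Λ + 2 * (1 + Λ), by positivity, ?_, ?_⟩
      · intro y y'
        have e : A y + b 1 y - b (-1) y - (A y' + b 1 y' - b (-1) y') =
            (A y - A y') + (b 1 y - b 1 y') - (b (-1) y - b (-1) y') := by abel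
        rw [e]
        have h1 := hblip 1 abs_one y y'
        have h2 := hblip (-1) (by rw [abs_neg, abs_one]) y y'
        have h3 := hA y y'
        have h4 := norm_sub_le ((A y - A y') + (b 1 y - b 1 y')) (b (-1) y - b (-1) y')
        have h5 := norm_add_le (A y - A y') (b 1 y - b 1 y')
        nlinarith
      · intro y k hk
        rw [ContinuousMap.sub_apply, ContinuousMap.add_apply, hb, hb]
        rcases eq_or_ne (r k.1) j with he | he
        · have hbd : ∀ (σ : ℝ), ∀ γ : Pos r, max (σ * g y γ) 0 ≤ |σ| * ‖g y‖ := fun σ γ =>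
            max_le ((le_abs_self _).trans (by
              rw [abs_mul]
              gcongr
              exact (g y).norm_coe_le_norm γ)) (by positivity)
          rw [Bf_eq hUm hUr (hbd 1) (by positivity) (fun _ => le_max_right _ _) k he,
            Bf_eq hUm hUr (hbd (-1)) (by positivity) (fun _ => le_max_right _ _) k he]
          have h1 : g y k = y k - A y k.1 := rfl
          rw [h1]
          rcases le_total 0 (y k - A y k.1) with h2 | h2
          · rw [max_eq_left (by linarith), max_eq_right (by linarith)]; ring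
          · rw [max_eq_right (by linarith), max_eq_left (by linarith)]; ring
        · have hlt : j < r k.1 := by omega
          rw [Bf_zero hUr (fun _ => le_max_right _ _) hlt,
            Bf_zero hUr (fun _ => le_max_right _ _) hlt, add_zero, sub_zero]
          exact hA' y k (by omega)
  obtain ⟨A, Λ, h1, h2, h3⟩ := key n
  exact ⟨A, Λ, h1, h2, fun y k => h3 y k (by omega)⟩

end Pool.Agent.Helper8.DP
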